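import Pool.Agent.N206.CG.Stm2

/-!
# CG/C2: the contraction argument
-/

set_option autoImplicit false

namespace Pool.Agent.N56.CG.C2

open Pool.Agent.N206.CG Classical

variable {L : Loc} {S : Sys L}

/-- `c` compares the section at `x` with the one at the base letter -/
def Cx (α : ∀ m, MulAut (S.D m)) (n : ℕ) (x : L.E n) (c : S.D (n + 1)) : Prop :=
  S.asc n (α n) x = MulAut.conj c * α (n + 1)

variable {α : ∀ m, MulAut (S.D m)}

theorem ex_cx (hB : RulesB S) (hN : IsNor S α) (n : ℕ) (x : L.E n) : ∃ c, Cx α n x c := by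
  obtain ⟨d, hd⟩ := hB.asc_inn n (α n) (L.z n) x
  refine ⟨d, ?_⟩
  unfold Cx
  rw [hd, hN.1 n]

theorem cx_root (hA : RulesA S) (hN : IsNor S α) {n : ℕ} {x : L.E n} {c : S.D (n + 1)}
    (hx : x ∈ L.X n) (h : Cx α n x c) : S.root (n + 1) c = 1 := by
  have e := hN.2.2 n x hx
  unfold Cx at h
  rwa [h, hA.sg_mul, hA.sg_conj, hN.2.1 (n + 1), mul_one] at e

/-- (1) -/
theorem allsec (hA : RulesA S) (hN : IsNor S α) {n : ℕ} (hfix : ∀ b, α n (S.sp n b) = S.sp n b)
    {x : L.E n} (hx : x ∈ L.X n) (y y' : L.E (n + 1)) :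
    S.asc (n + 1) (S.asc n (α n) x) y = S.asc (n + 1) (S.asc n (α n) x) y' := by
  have hsg := hN.2.2 n x hx
  have hrt : ∀ g : L.P (n + 1), S.asc n (α n) x (S.rt (n + 1) g) = S.rt (n + 1) g := by
    rintro ⟨g, hg⟩
    have hg' := hg
    rw [← L.rho_range (n + 1)] at hg'
    obtain ⟨b, rfl⟩ := hg'
    have h := hA.sec_ap n (α n) (S.sp n b) x (S.root_sp n b)
    rw [hfix b, hN.2.1 n, Equiv.Perm.one_apply, S.sec_sp_X n b x hx] at h
    exact h.symm
  have hstep : ∀ (g : L.P (n + 1)) (w : L.E (n + 1)),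
      S.asc (n + 1) (S.asc n (α n) x) ((g : Equiv.Perm (L.E (n + 1))) w) =
        S.asc (n + 1) (S.asc n (α n) x) w := by
    intro g w
    have h := hA.comm_ap (n + 1) (S.asc n (α n) x) (S.rt (n + 1) g) w
    rw [hrt g, S.root_rt, S.sec_rt, S.sec_rt, map_one, mul_one, one_mul] at h
    exact h
  obtain ⟨g, hg, hgy⟩ := L.trans (n + 1) y' y
  rw [← hgy]
  exact hstep ⟨g, hg⟩ y'

/-- (2) -/
theorem star (hA : RulesA S) (hN : IsNor S α) {n : ℕ} (hfix : ∀ b, α n (S.sp n b) = S.sp n b)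
    {x : L.E n} (hx : x ∈ L.X n) {c : S.D (n + 1)} (h : Cx α n x c) {x2 : L.E (n + 1)}
    {c2 : S.D (n + 2)} (h2 : Cx α (n + 1) x2 c2) :
    c2 = (S.sec (n + 1) c x2)⁻¹ * S.sec (n + 1) c (L.z (n + 1)) := by
  have e := allsec hA hN hfix hx (L.z (n + 1)) x2
  have h' : S.asc n (α n) x = MulAut.conj c * α (n + 1) := h
  have h2' : S.asc (n + 1) (α (n + 1)) x2 = MulAut.conj c2 * α (n + 2) := h2
  have h3 : α (n + 2) = S.asc (n + 1) (α (n + 1)) (L.z (n + 1)) := hN.1 (n + 1)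
  rw [h', hA.asc_mul, hA.asc_mul, hN.2.1 (n + 1), Equiv.Perm.one_apply, Equiv.Perm.one_apply,
    hA.asc_conj, hA.asc_conj, h2', ← h3, ← mul_assoc, ← map_mul] at e
  have e2 := hA.conj_inj (n + 2) _ _ (mul_right_cancel e)
  rw [e2, inv_mul_cancel_left]

theorem stepB (hA : RulesA S) (hB : RulesB S) (hN : IsNor S α) {m : ℕ}
    (hfix : ∀ b, α m (S.sp m b) = S.sp m b) {b : L.B}
    (h : ∀ y ∈ L.X m, Cx α m y (S.sp (m + 1) b)) :
    L.rho (m + 1 + 1) b = 1 ∧ ∀ y ∈ L.X (m + 1), Cx α (m + 1) y (S.sp (m + 1 + 1) b) := by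
  obtain ⟨a, ha, -⟩ := L.X_two m
  have key : ∀ y ∈ L.X (m + 1), L.rho (m + 1 + 1) b = 1 ∧
      Cx α (m + 1) y (S.sp (m + 1 + 1) b) := by
    intro y hy
    obtain ⟨c2, hc2⟩ := ex_cx hB hN (m + 1) y
    have e := star hA hN hfix ha (h a ha) hc2
    have hr := cx_root hA hN hy hc2
    rw [S.sec_sp_X _ b y hy, S.sec_sp_z] at e
    rw [e, map_mul, map_inv, S.root_rt, S.root_sp, mul_one, inv_eq_one] at hr
    refine ⟨hr, ?_⟩
    have hg1 : (⟨L.rho (m + 1 + 1) b, by
        rw [← L.rho_range (m + 1 + 1)]; exact ⟨b, rfl⟩⟩ : L.P (m + 1 + 1)) = 1 := Subtype.ext hr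
    rw [hg1, map_one, inv_one, one_mul] at e
    rwa [e] at hc2
  obtain ⟨y, hy, -⟩ := L.X_two (m + 1)
  exact ⟨(key y hy).1, fun y hy => (key y hy).2⟩

theorem main (hA : RulesA S) (hB : RulesB S) (h1 : S_LEN S) (h2 : S_SEC S) (hN : IsNor S α)
    (N : ℕ) (hfix : ∀ n, N ≤ n → ∀ b, α n (S.sp n b) = S.sp n b) :
    ∀ k n, N ≤ n → ∀ x ∈ L.X n, ∀ c, Cx α n x c → c ∈ S.LL (n + 1) k →
      ∃ N', N ≤ N' ∧ ∀ m, N' ≤ m → ∀ x ∈ L.X m, Cx α m x 1 := by
  intro k
  induction k using Nat.strong_induction_on with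
  | _ k ih =>
    intro n hn x hx c hc hk
    obtain ⟨w, w1, w2, w3⟩ := h2 (n + 1) k c hk
    have hwz : w (L.z (n + 1)) ≤ k := by
      have := w1 {L.z (n + 1)}
      rwa [Finset.sum_singleton] at this
    by_cases hlt : w (L.z (n + 1)) < k
    · obtain ⟨a, ha, b, hb, hab⟩ := L.X_two (n + 1)
      have hza : L.z (n + 1) ≠ a := fun h => L.z_not (n + 1) (h ▸ ha)
      have hzb : L.z (n + 1) ≠ b := fun h => L.z_not (n + 1) (h ▸ hb)
      have hsum : w (L.z (n + 1)) + (w a + w b) ≤ k := by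
        have h := w1 {L.z (n + 1), a, b}
        rw [Finset.sum_insert (by simp [hza, hzb]), Finset.sum_pair hab] at h
        exact h
      have go : ∀ y ∈ L.X (n + 1), w y + w (L.z (n + 1)) < k →
          ∃ N', N ≤ N' ∧ ∀ m, N' ≤ m → ∀ x ∈ L.X m, Cx α m x 1 := by
        intro y hy hlt2
        obtain ⟨c2, hc2⟩ := ex_cx hB hN (n + 1) y
        have e := star hA hN (hfix n hn) hx hc hc2
        refine ih _ hlt2 (n + 1) (by omega) y hy c2 hc2 ?_
        rw [e]
        exact (h1 (n + 1 + 1)).2.2.1 _ _ _ _ ((h1 (n + 1 + 1)).2.2.2 _ _ (w2 y)) (w2 _)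
      rcases le_total (w a) (w b) with hle | hle
      · exact go a ha (by omega)
      · exact go b hb (by omega)
    · have hwk : w (L.z (n + 1)) = k := le_antisymm hwz (not_lt.1 hlt)
      obtain ⟨b, hb⟩ := w3 hwk
      have hbase : ∀ y ∈ L.X (n + 1), Cx α (n + 1) y (S.sp (n + 1 + 1) b) := by
        intro y hy
        have hzy : L.z (n + 1) ≠ y := fun h => L.z_not (n + 1) (h ▸ hy)
        have hwy : w y = 0 := by
          have h := w1 {L.z (n + 1), y}
          rw [Finset.sum_pair hzy] at h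
          omega
        have hs := w2 y
        rw [hwy] at hs
        obtain ⟨g, hg⟩ := hs
        obtain ⟨c2, hc2⟩ := ex_cx hB hN (n + 1) y
        have e := star hA hN (hfix n hn) hx hc hc2
        have hr := cx_root hA hN hy hc2
        rw [← hg, hb] at e
        rw [e, map_mul, map_inv, S.root_rt, S.root_sp, mul_one, inv_eq_one] at hr
        have hg1 : g = 1 := Subtype.ext hr
        rw [hg1, map_one, inv_one, one_mul] at e
        rwa [e] at hc2
      have hind : ∀ j, ∀ y ∈ L.X (n + 1 + j), Cx α (n + 1 + j) y (S.sp (n + 1 + j + 1) b) := by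
        intro j
        induction j with
        | zero => exact hbase
        | succ j ihj => exact (stepB hA hB hN (hfix (n + 1 + j) (by omega)) ihj).2
      have hrho : ∀ j, L.rho (n + 1 + j + 1 + 1) b = 1 := fun j =>
        (stepB hA hB hN (hfix (n + 1 + j) (by omega)) (hind j)).1
      have hb1 : b = 1 := by
        refine L.rho_inj (n + 3) b fun m hm => ?_
        have h := hrho (m - (n + 3))
        have e : n + 1 + (m - (n + 3)) + 1 + 1 = m := by omega
        rw [e] at h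
        exact h
      refine ⟨n + 1, by omega, fun m hm y hy => ?_⟩
      obtain ⟨j, rfl⟩ : ∃ j, m = n + 1 + j := ⟨m - (n + 1), by omega⟩
      have h := hind j y hy
      rwa [hb1, map_one] at h

theorem t_C2 {L : Loc} (S : Sys L) (hA : RulesA S) (hB : RulesB S) (h1 : S_LEN S)
    (h2 : S_SEC S) : S_C2 S := by
  rintro α hN ⟨N, hfix⟩
  obtain ⟨x, hx, -⟩ := L.X_two N
  obtain ⟨c, hc⟩ := ex_cx hB hN N x
  obtain ⟨k, hk⟩ := (h1 (N + 1)).1 c
  obtain ⟨N', hN', hone⟩ := main hA hB h1 h2 hN N hfix k N le_rfl x hx c hc hk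
  refine ⟨N' + 1, fun n hn y => ?_⟩
  obtain ⟨m, rfl⟩ : ∃ m, n = m + 1 := ⟨n - 1, by omega⟩
  obtain ⟨a, ha, -⟩ := L.X_two m
  have h := hone m (by omega) a ha
  unfold Cx at h
  rw [map_one, one_mul] at h
  have e := allsec hA hN (hfix m (by omega)) ha y (L.z (m + 1))
  rw [h] at e
  rw [e]
  exact (hN.1 (m + 1)).symm

end Pool.Agent.N56.CG.C2
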